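import Pool.Agent.TH672.Main4

set_option autoImplicit false

/-!
# Short proofs of the consistency of `A + Con_A (2 ^ n)`

The formulas, the Hilbert calculus, the strings, the dyadic numerals and the consistency statements
are defined in `Pool.Agent.TH672.Defs`.
-/

namespace Pool.Agent.Results.MP_f85ba2_lc.ShortConsistencyProofs

open Pool.Agent.TH672

/-- There are formulas `P` that formalize provability by proofs of bounded length, and for each of
them and each finite list `T` of true sentences there are a finite list `A` of true sentences that
contains `T` and the axioms of Robinson arithmetic, and a polynomial `p`, such that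
`Con_{A + Con_A (2 ^ n)} (m)` has a proof from `A` of length at most `p n`, for all `n` and all
`m ≤ (n + 1) ^ 2` (in particular for `m = n`). -/
theorem result : (∃ P, Represents P) ∧ ∀ P, Represents P → ∀ T : List Form,
    (∀ φ ∈ T, φ.Closed ∧ φ.True) → ∃ A : List Form, robinson ⊆ A ∧ T ⊆ A ∧
      (∀ φ ∈ A, φ.Closed ∧ φ.True) ∧ (∀ m, ¬ Proves A m Form.bot) ∧
      ∃ p : Polynomial ℕ, ∀ n, ∀ m ≤ (n + 1) ^ 2,
        Proves A (p.eval n) (conAt P (A ++ [conAt P A (2 ^ n)]) m) :=
  mycielski

end Pool.Agent.Results.MP_f85ba2_lc.ShortConsistencyProofs
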